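import Pool.Agent.Helper55.RT.Spec6
import Pool.Agent.Helper55.RT.MT1
import Pool.Agent.Helper55.RG.Hfin1

/-!
# Part TRL: transport of local triviality
-/

set_option autoImplicit false
set_option linter.all false

open Polynomial IsDedekindDomain
open scoped Classical

namespace Pool.Agent.Helper29.Thin.TRL

open Pool.Agent.TH115.GD Pool.Agent.Helper55.TT
open Pool.Agent.Helper55.RG hiding em_inj VanishL VanishExt
open Pool.Agent.Helper55.RL Pool.Agent.Helper55.RT

theorem main (hTRN : Q_TRN) : Q_TRL := by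
  intro p _ k k' K F _ _ _ _ _ _ _ _ _ _ hT q D d ρ τ c c' hc hcc
  haveI := hT.sep
  haveI : IsAlgClosed k' := isAC (k := k)
  obtain ⟨r, -, hr⟩ := Pool.Agent.Helper44.Thin.KMM.exists_r hT
  -- the transport of one place
  have key : ∀ θ' : k', LocCobAt k' ρ c (pl ((r τ).symm θ')) → LocCobAt k' ρ c' (pl θ') := by
    rintro θ' ⟨ι, y, hy⟩
    have h1 : τ (em k' F (Sep F) (C ((r τ).symm θ'))) = em k' F (Sep F) (C θ') := by
      rw [hr, Polynomial.map_C]
      congr 2
      exact (r τ).apply_symm_apply θ'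
    obtain ⟨ι', hι'⟩ := hTRN k k' K F hT τ _ θ' h1 ι
    refine ⟨ι', actQ ρ τ y, fun σ hσ => ?_⟩
    obtain ⟨σ', hσ'⟩ := conj_ex hT τ σ
    have h2 : τ * σ'.restrictScalars K = σ.restrictScalars K * τ := by
      ext z
      exact hσ' z
    rw [hcc σ σ' hσ', hy σ' (hι' σ σ' hσ' hσ), actQ_sub', ← actQ_mul', h2, actQ_mul']
  have hev : ∀ (f : k[X]) (θ' : k'), aeval ((r τ).symm θ') f = (r τ).symm (aeval θ' f) := by
    intro f θ'
    exact aeval_algHom_apply ((r τ).symm : k' →ₐ[k] k') θ' f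
  refine ⟨fun v hv => ?_, fun θ' hθ' => key θ' (hc.2 _ ?_)⟩
  · obtain ⟨a, rfl⟩ := eq_pl' v
    refine key a (hc.1 _ ?_)
    rw [mem_pl', eval_map_algebraMap] at hv ⊢
    rw [hev]
    intro h
    exact hv ((map_eq_zero_iff _ (r τ).symm.injective).1 h)
  · rw [hev, hθ', map_zero]

end Pool.Agent.Helper29.Thin.TRL
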